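import Pool.Agent.H92.EM.TB
import Pool.Agent.H4.EQ.KO2
import Pool.Agent.H96.EQ.D13

/-!
# MP_75a732_an, board emd_modules, row MKO: the mean

Adaptation of `Pool.Agent.H85.EHD.pf_EKO` with the bump in place of the Gaussian law.
-/

set_option autoImplicit false

open scoped BigOperators ComplexConjugate ContDiff ComplexOrder
open MeasureTheory Filter Pool.Agent.H92.EQ Pool.Agent.H92.EM Pool.Agent.H36.EQ

namespace Pool.Agent.H91.EM

noncomputable section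

/-- the classes grow with `A` -/
theorem clsM_mono {m k p q : ℕ} {K : Set (Fin (k + 1) → ℂ)} {A A' : ℝ}
    {S : Form (Fin (k + 1)) p}
    (hm : 0 ≤ mass q (om (k + 1) p)) (h : A ≤ A') (hS : Cls m K q A S) : Cls m K q A' S :=
  ⟨hS.pf, hS.ink, hS.ms, fun b hb δ h1 h2 =>
    (hS.lm b hb δ h1 h2).trans (mul_le_mul_of_nonneg_right h hm)⟩

theorem evi_succ {N : ℕ} (F : Fin N → MvPolynomial (Fin N) ℂ) (n : ℕ) (z : Fin N → ℂ) :
    ev (iter F (n + 1)) z = ev F (ev (iter F n) z) := by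
  funext i
  show MvPolynomial.eval z (MvPolynomial.bind₁ (iter F n) (F i)) =
    MvPolynomial.eval (fun j => MvPolynomial.eval z (iter F n j)) (F i)
  exact MvPolynomial.eval₂Hom_bind₁ _ _ _ _

theorem stK_iter {N : ℕ} {F : Fin N → MvPolynomial (Fin N) ℂ} {𝒦 : Set (Set (Fin N → ℂ))}
    (h : StK F 𝒦) (n : ℕ) : ∀ K ∈ 𝒦, ev (iter F n) ⁻¹' K ∈ 𝒦 := by
  induction n with
  | zero =>
    intro K hK
    have h1 : ev (iter F 0) ⁻¹' K = K := by
      ext z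
      have h2 : ev (iter F 0) z = z := by
        funext i
        show MvPolynomial.eval z (MvPolynomial.X i) = z i
        exact MvPolynomial.eval_X i
      rw [Set.mem_preimage, h2]
    rw [h1]
    exact hK
  | succ n ih =>
    intro K hK
    have h1 : ev (iter F (n + 1)) ⁻¹' K = ev (iter F n) ⁻¹' (ev F ⁻¹' K) := by
      ext z
      rw [Set.mem_preimage, Set.mem_preimage, Set.mem_preimage, evi_succ]
    rw [h1]
    exact ih _ (h K hK)

/-- the law has integral one -/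
theorem bth_int {k : ℕ} {θ : ℝ} (h1 : Integrable (bs θ)) (h2 : ∫ t, bs θ t = 1) :
    Integrable (fun X : Fin (k + 1) → Fin (k + 1) → ℂ => bth θ X) ∧
    ∫ X : Fin (k + 1) → Fin (k + 1) → ℂ, bth θ X = 1 := by
  have h3 : Integrable (fun x : Fin (k + 1) → ℂ => ∏ j, bs θ (x j)) :=
    Integrable.fintype_prod (f := fun _ : Fin (k + 1) => bs θ) fun _ => h1
  have h4 : ∫ x : Fin (k + 1) → ℂ, ∏ j, bs θ (x j) = 1 := by
    rw [integral_fintype_prod_volume_eq_prod (fun _ : Fin (k + 1) => bs θ)]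
    simp [h2]
  constructor
  · exact Integrable.fintype_prod
      (f := fun _ : Fin (k + 1) => fun x : Fin (k + 1) → ℂ => ∏ j, bs θ (x j)) fun _ => h3
  · have h5 := integral_fintype_prod_volume_eq_prod
      (fun _ : Fin (k + 1) => fun x : Fin (k + 1) → ℂ => ∏ j, bs θ (x j))
    unfold bth
    rw [h5]
    simp [h4]

theorem bth_nonneg {k : ℕ} {θ : ℝ} (h : ∀ t, 0 ≤ bs θ t)
    (X : Fin (k + 1) → Fin (k + 1) → ℂ) : 0 ≤ bth θ X :=
  Finset.prod_nonneg fun _ _ => Finset.prod_nonneg fun _ _ => h _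

theorem bth_zero {k : ℕ} {θ : ℝ} (h : ∀ t, θ ≤ ‖t‖ → bs θ t = 0)
    {X : Fin (k + 1) → Fin (k + 1) → ℂ} (hX : ¬ ∀ i j, ‖X i j‖ ≤ θ) : bth θ X = 0 := by
  push Not at hX
  obtain ⟨i, j, hij⟩ := hX
  exact Finset.prod_eq_zero (Finset.mem_univ i)
    (Finset.prod_eq_zero (Finset.mem_univ j) (h _ hij.le))

theorem mX_diag {m k : ℕ} (X : Fin (k + 1) → Fin (k + 1) → ℂ) {i j : Fin (k + 1)}
    (hi : (i : ℕ) < m) (hj : j ≠ i) : mX m X i j = 0 :=
  if_pos ⟨hi, hj⟩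

theorem mX_close {m k : ℕ} {θ : ℝ} (hθ : 0 ≤ θ) {X : Fin (k + 1) → Fin (k + 1) → ℂ}
    (hX : ∀ i j, ‖X i j‖ ≤ θ) (i j : Fin (k + 1)) :
    ‖mX m X i j - (1 : Matrix (Fin (k + 1)) (Fin (k + 1)) ℂ) i j‖ ≤ θ := by
  by_cases h : (i : ℕ) < m ∧ j ≠ i
  · rw [mX_diag X h.1 h.2, Matrix.one_apply_ne (Ne.symm h.2), sub_zero, norm_zero]
    exact hθ
  · have h1 : mX m X i j = (1 : Matrix (Fin (k + 1)) (Fin (k + 1)) ℂ) i j + X i j := by
      show (if (i : ℕ) < m ∧ j ≠ i then 0 else (1 + Matrix.of X) i j) = _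
      rw [if_neg h]
      simp
    rw [h1, add_sub_cancel_left]
    exact hX i j

theorem pf_MKO (hMMA : T_MMA) (hMBU : T_MBU) (hKP2 : T_KP2) (hL3 : T_L3) (hL6 : T_L6)
    (hP1 : T_P1) (hL1 : T_L1) (hP3 : T_P3) (hP5 : T_P5) (hD7 : T_D7) (hD12 : T_D12) :
    T_MKO := by
  intro s k d p κ F KK hs hk hd hp hFE hSt hZ hCs hTG hMG q hq0 φ u hφ hu ε hε
  have hF : IsH d F := hFE.isH
  have hq : p + q + 1 = k + 1 := by omega
  have hd1 : 1 ≤ d := by omega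
  have hd0 : (0 : ℝ) < d := by exact_mod_cast hd1
  obtain ⟨B, hB, hBφ⟩ := (hL6 (k + 1)).1 φ hφ.smooth.continuousOn (fun r z hr hz =>
    hφ.hom r z (by exact_mod_cast hr.ne') hz)
  obtain ⟨φ1, hφ1d⟩ : ∃ φ1 : (Fin (k + 1) → ℂ) → ℝ, ∀ z, φ1 z = φ z + B := ⟨_, fun _ => rfl⟩
  have hφ1e : φ1 = fun z => φ z + B := funext hφ1d
  have hφ1 : Hom0 φ1 := by
    refine ⟨?_, fun l z hl hz => ?_⟩
    · rw [hφ1e]
      exact hφ.smooth.add contDiffOn_const
    · rw [hφ1d, hφ1d, hφ.hom l z hl hz]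
  have hφ1n : ∀ z, z ≠ 0 → 0 ≤ φ1 z := by
    intro z hz
    rw [hφ1d]
    linarith [neg_le_of_abs_le (hBφ z hz)]
  have hφ1b : ∀ z, z ≠ 0 → |φ1 z| ≤ 2 * B := by
    intro z hz
    rw [abs_of_nonneg (hφ1n z hz), hφ1d]
    linarith [le_of_abs_le (hBφ z hz)]
  obtain ⟨C, hC0, hPot⟩ := (hL6 (k + 1)).2.2 φ1 hφ1
  have hell : Pot (ell : (Fin (k + 1) → ℂ) → ℝ) := (hL3 (k + 1)).1
  obtain ⟨c, hc, hT⟩ := hTG q hq0
  obtain ⟨c', hc', hMn⟩ := hMG q hq0 κ
  obtain ⟨Ce, hCe, hEm⟩ := hMMA s k d p q F hd hq0 hFE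
  obtain ⟨Cb, hCb, hbs, -⟩ := hMBU
  obtain ⟨c0, hc0d⟩ : ∃ c0 : ℝ, c0 = mass q (om (k + 1) p) := ⟨_, rfl⟩
  have hc0 : 0 < c0 := by rw [hc0d]; exact ((hD7 (k + 1) p).2 q hq).1
  have hom : ProjForm (om (k + 1) p) := (hD7 (k + 1) p).1
  obtain ⟨Ck, hCk⟩ := hKP2 (k + 1) d p q F φ u hd hq hF hφ hu
  -- the parameters
  obtain ⟨Bw, hBwd⟩ : ∃ Bw : ℝ, Bw = 2 * B / C := ⟨_, rfl⟩
  have hBw : 0 < Bw := by rw [hBwd]; positivity
  obtain ⟨K0, hK0d⟩ : ∃ K0 : ℝ, K0 = C * c * c0 := ⟨_, rfl⟩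
  have hK0 : 0 < K0 := by rw [hK0d]; positivity
  obtain ⟨K1, hK1d⟩ : ∃ K1 : ℝ, K1 = C * c' * c0 := ⟨_, rfl⟩
  have hK1 : 0 < K1 := by rw [hK1d]; positivity
  obtain ⟨δ, hδd⟩ : ∃ δ : ℝ, δ = ε / (16 * K0) := ⟨_, rfl⟩
  have hδ : 0 < δ := by rw [hδd]; positivity
  have hδ2 : K0 * δ = ε / 16 := by
    rw [hδd]
    field_simp
  obtain ⟨a1, ha1, hCs1⟩ := hCs q hq0 φ1 u hφ1 hφ1n hu (ε / 16) δ (by positivity) hδ
  obtain ⟨a, had⟩ : ∃ a : ℝ, a = min a1 (ε / (16 * K1)) := ⟨_, rfl⟩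
  have ha : 0 < a := by rw [had]; exact lt_min ha1 (by positivity)
  have haK : K1 * a ≤ ε / 16 := by
    have h1 : a ≤ ε / (16 * K1) := by rw [had]; exact min_le_right _ _
    calc K1 * a ≤ K1 * (ε / (16 * K1)) := mul_le_mul_of_nonneg_left h1 hK1.le
      _ = ε / 16 := by field_simp
  refine ⟨a, ha, fun K hK => ?_⟩
  obtain ⟨i1, n0, hn0, hCst⟩ := hCs1 K hK
  have hKZ : ev (iter F i1) ⁻¹' K ⊆ Zk s κ := hZ _ (stK_iter hSt i1 K hK)
  have hsub := tendsto_sub_atTop_nat i1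
  have hdp : Tendsto (fun n : ℕ => (d : ℝ) ^ (n - i1)) atTop atTop := by
    have h1 : Tendsto (fun n : ℕ => (d : ℝ) ^ n) atTop atTop :=
      tendsto_pow_atTop_atTop_of_one_lt (by exact_mod_cast (by omega : 1 < d))
    exact h1.comp hsub
  have hev1 : ∀ᶠ n : ℕ in atTop, ‖Real.log ((d : ℝ) ^ (n - i1))‖ ≤
      ε / (32 * K1) * ‖(d : ℝ) ^ (n - i1)‖ :=
    hdp.eventually (Real.isLittleO_log_id_atTop.def (by positivity))
  have hev2 : ∀ᶠ n : ℕ in atTop, 16 * K0 / ε ≤ (d : ℝ) ^ (n - i1) :=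
    hdp.eventually_ge_atTop _
  have hev3 : ∀ᶠ n : ℕ in atTop, 4 * |Ck| / ε ≤ (d : ℝ) ^ (n - i1) :=
    hdp.eventually_ge_atTop _
  have hev4 : ∀ᶠ n : ℕ in atTop, 32 * (K1 * (1 + Ce + Bw)) / ε ≤ (d : ℝ) ^ (n - i1) :=
    hdp.eventually_ge_atTop _
  have hev5 : ∀ᶠ n : ℕ in atTop, Real.log (1 / th0 k) / δ ≤ (d : ℝ) ^ (n - i1) :=
    hdp.eventually_ge_atTop _
  obtain ⟨n1, hn1⟩ := eventually_atTop.1
    (hev1.and (hev2.and (hev3.and (hev4.and (hev5.and (eventually_ge_atTop i1))))))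
  refine ⟨max n0 n1, fun n hn S hS0 => ?_⟩
  have hnn0 : n0 ≤ n := (le_max_left _ _).trans hn
  obtain ⟨hb1, hb2, hb3, hb4, hb5, hb6⟩ := hn1 n ((le_max_right _ _).trans hn)
  obtain ⟨m, hm⟩ : ∃ m, n = m + i1 := ⟨n - i1, by omega⟩
  have hm' : n - i1 = m := by omega
  rw [hm'] at hb1 hb2 hb3 hb4 hb5
  obtain ⟨D', hD'⟩ : ∃ D' : ℝ, D' = (d : ℝ) ^ (p * m) := ⟨_, rfl⟩
  have hD'0 : 0 < D' := by rw [hD']; positivity
  have hcast : (((d ^ m : ℕ) : ℝ)) ^ p = D' := by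
    rw [hD']
    push_cast
    rw [← pow_mul, mul_comm]
  have hdm0 : (0 : ℝ) < (d : ℝ) ^ m := by positivity
  have hth0 : 0 < th0 k := by
    unfold th0
    positivity
  obtain ⟨θ, hθd⟩ : ∃ θ : ℝ, θ = Real.exp (-(δ * (d : ℝ) ^ m)) := ⟨_, rfl⟩
  have hθ : 0 < θ := by rw [hθd]; exact Real.exp_pos _
  have hθ1 : θ ≤ th0 k := by
    rw [div_le_iff₀ hδ, one_div, Real.log_inv] at hb5
    calc θ ≤ Real.exp (Real.log (th0 k)) := by
          rw [hθd]
          exact Real.exp_le_exp.2 (by linarith)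
      _ = th0 k := Real.exp_log hth0
  have hlog : Real.log (1 / θ) = δ * (d : ℝ) ^ m := by
    rw [one_div, Real.log_inv, hθd, Real.log_exp, neg_neg]
  obtain ⟨-, hbs0, -, hbsz, hbsi, hbs1⟩ := hbs θ hθ
  obtain ⟨hgi, hgss⟩ := bth_int (k := k) hbsi hbs1
  have hΦ : IsH (d ^ m) (iter F m) := (hD12 (k + 1) d F hd1 hF 0 m).1
  have hdm : 1 ≤ d ^ m := Nat.one_le_pow _ _ hd1
  have hdn : (d : ℝ) ^ n = (d : ℝ) ^ m * (d : ℝ) ^ i1 := by rw [hm, pow_add]
  obtain ⟨Lg, hLg⟩ : ∃ Lg : ℝ, Lg = Real.log (((d ^ m : ℕ) : ℝ)) := ⟨_, rfl⟩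
  have hLg1 : K1 * Lg ≤ ε / 32 * (d : ℝ) ^ m := by
    have h1 : Lg ≤ ε / (32 * K1) * (d : ℝ) ^ m := by
      rw [Real.norm_eq_abs, Real.norm_eq_abs, abs_of_pos hdm0] at hb1
      rw [hLg]
      push_cast
      exact (le_abs_self _).trans hb1
    calc K1 * Lg ≤ K1 * (ε / (32 * K1) * (d : ℝ) ^ m) := mul_le_mul_of_nonneg_left h1 hK1.le
      _ = ε / 32 * (d : ℝ) ^ m := by field_simp
  -- one form
  have key : |pair φ1 (Sn F d n S) u - pair φ1 (Sn F d m (om (k + 1) p)) u| ≤ 5 * (ε / 16) := by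
    have hS : ProjForm S := hS0.pf
    have hmS : mass q S = mass q (om (k + 1) p) := hS0.ms
    have hS1 : ProjForm (Sn F d i1 S) := (hD12 (k + 1) d F hd1 hF 0 i1).2.2.2.2 p S hS
    have hmS1 : mass q (Sn F d i1 S) = c0 := by
      rw [((hP5 (k + 1) p q d S hq hS).2.1 F i1 hd1 hF), hmS, hc0d]
    have hCl := hEm K i1 (a * (d : ℝ) ^ n) S (by positivity) hS0
    have hLM : LM s q (Sn F d i1 S) (a * (d : ℝ) ^ m + Ce) := by
      have h1 := hCl.lm
      have h2 : a * (d : ℝ) ^ n / (d : ℝ) ^ i1 = a * (d : ℝ) ^ m := by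
        rw [hdn]
        field_simp
      rwa [h2] at h1
    have hInK : InK (Zk s κ) (Sn F d i1 S) := fun z hz hzK I J =>
      hCl.ink z hz (fun h => hzK (hKZ h)) I J
    have hSn : ProjForm (Sn F d n S) := (hD12 (k + 1) d F hd1 hF 0 n).2.2.2.2 p S hS
    obtain ⟨Kn, hKn⟩ : ∃ Kn : ℝ, Kn = D' * pair φ1 (Sn F d n S) u := ⟨_, rfl⟩
    have hfe : φ1 = fun z => C * ((ell z + φ1 z / C) - ell z) := by
      funext z
      field_simp
      ring
    have ham : ∀ A : Matrix (Fin (k + 1)) (Fin (k + 1)) ℂ,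
        am φ1 (iter F m) (Sn F d i1 S) u A =
        C * am (fun z => (ell z + φ1 z / C) - ell z) (iter F m) (Sn F d i1 S) u A := by
      intro A
      unfold am
      rw [← pair_const]
      exact congrArg (fun f => pair f (pull (cmp (lin A) (iter F m)) (Sn F d i1 S)) u) hfe
    obtain ⟨hI1, hI3⟩ := hT (d ^ m) (iter F m) hdm hΦ (fun z => ell z + φ1 z / C) ell u
      hPot hell hu (Sn F d i1 S) hS1 θ hθ hθ1
    have hbd : ∀ z : Fin (k + 1) → ℂ, z ≠ 0 → |(ell z + φ1 z / C) - ell z| ≤ Bw := by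
      intro z hz
      rw [add_sub_cancel_left, abs_div, abs_of_pos hC0, hBwd]
      exact div_le_div_of_nonneg_right (hφ1b z hz) hC0.le
    have hM3 := hMn (d ^ m) (iter F m) hdm hΦ (fun z => ell z + φ1 z / C) ell u Bw
      hPot hell hu hBw.le hbd (Sn F d i1 S) (a * (d : ℝ) ^ m + Ce) (by positivity) hS1 hInK
      (hmS1.trans hc0d) hLM
    have hint : ∀ t : ℝ, (fun X : Fin (k + 1) → Fin (k + 1) → ℂ => bth t X *
          am φ1 (iter F m) (Sn F d i1 S) u (mX s X)) = fun X => C * (bth t X *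
          am (fun z => (ell z + φ1 z / C) - ell z) (iter F m) (Sn F d i1 S) u (mX s X)) := by
      intro t
      funext X
      rw [ham]
      ring
    have hJ1 : Integrable (fun X : Fin (k + 1) → Fin (k + 1) → ℂ => bth θ X *
        am φ1 (iter F m) (Sn F d i1 S) u (mX s X)) := by
      rw [hint]
      exact hI1.const_mul C
    obtain ⟨E1, hE1⟩ : ∃ E1 : ℝ, E1 = ∫ X : Fin (k + 1) → Fin (k + 1) → ℂ, bth θ X *
      am φ1 (iter F m) (Sn F d i1 S) u (mX s X) := ⟨_, rfl⟩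
    obtain ⟨E2, hE2⟩ : ∃ E2 : ℝ, E2 = ∫ X : Fin (k + 1) → Fin (k + 1) → ℂ, bth (th0 k) X *
      am φ1 (iter F m) (Sn F d i1 S) u (mX s X) := ⟨_, rfl⟩
    have e1 : E1 = C * ∫ X : Fin (k + 1) → Fin (k + 1) → ℂ, bth θ X *
        am (fun z => (ell z + φ1 z / C) - ell z) (iter F m) (Sn F d i1 S) u (mX s X) := by
      rw [hE1, ← integral_const_mul, hint]
    have e2 : E2 = C * ∫ X : Fin (k + 1) → Fin (k + 1) → ℂ, bth (th0 k) X *
        am (fun z => (ell z + φ1 z / C) - ell z) (iter F m) (Sn F d i1 S) u (mX s X) := by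
      rw [hE2, ← integral_const_mul, hint]
    -- step 3
    obtain ⟨Pm, hPm⟩ : ∃ Pm : ℝ, Pm = pair φ1 (pull (iter F m) (om (k + 1) p)) u := ⟨_, rfl⟩
    have h3 : pair φ1 (Sn F d m (om (k + 1) p)) u = D'⁻¹ * Pm := by
      rw [pair_Sn, hD', hPm]
    have h3b : |E2 - Pm| ≤ K1 * (1 + (a * (d : ℝ) ^ m + Ce) + Bw + Lg) *
        (D' / (d : ℝ) ^ m) := by
      have e3 : Pm = C * pair (fun z => (ell z + φ1 z / C) - ell z)
          (pull (iter F m) (om (k + 1) p)) u := by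
        rw [hPm, ← pair_const]
        exact congrArg (fun f => pair f (pull (iter F m) (om (k + 1) p)) u) hfe
      rw [e2, e3, ← mul_sub, abs_mul, abs_of_pos hC0]
      refine (mul_le_mul_of_nonneg_left hM3 hC0.le).trans (le_of_eq ?_)
      rw [hcast, ← hc0d, hK1d, ← hLg]
      push_cast
      ring
    -- step 2
    have h2 : |E1 - E2| ≤ K0 * (1 + δ * (d : ℝ) ^ m) * (D' / (d : ℝ) ^ m) := by
      rw [e1, e2, ← mul_sub, abs_mul, abs_of_pos hC0]
      refine (mul_le_mul_of_nonneg_left hI3 hC0.le).trans (le_of_eq ?_)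
      rw [hcast, hlog, hmS1, hK0d]
      push_cast
      ring
    -- step 1
    have h1 : |E1 - Kn| ≤ D' * (ε / 16) := by
      have e1' : E1 - Kn = ∫ X : Fin (k + 1) → Fin (k + 1) → ℂ, (bth θ X *
          am φ1 (iter F m) (Sn F d i1 S) u (mX s X) - bth θ X * Kn) := by
        rw [integral_sub hJ1 (hgi.mul_const Kn), integral_mul_const, hgss, one_mul, hE1]
      have hg : Integrable (fun X : Fin (k + 1) → Fin (k + 1) → ℂ =>
          bth θ X * (D' * (ε / 16))) := hgi.mul_const _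
      rw [e1', ← Real.norm_eq_abs]
      refine (norm_integral_le_of_norm_le hg ?_).trans (le_of_eq ?_)
      · refine Filter.Eventually.of_forall fun X => ?_
        rw [← mul_sub, norm_mul, Real.norm_eq_abs, Real.norm_eq_abs,
          abs_of_nonneg (bth_nonneg hbs0 X)]
        by_cases hX : ∀ i j, ‖X i j‖ ≤ θ
        · refine mul_le_mul_of_nonneg_left ?_ (bth_nonneg hbs0 X)
          have hSa : Cls s K q (a1 * (d : ℝ) ^ n) S := by
            refine clsM_mono (hc0d ▸ hc0.le) ?_ hS0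
            exact mul_le_mul_of_nonneg_right (by rw [had]; exact min_le_left _ _) (by positivity)
          have e5 := hCst n hnn0 S hSa (mX s X) (fun i j hi hj => mX_diag X hi hj) (by
            rw [hm', ← hθd]
            exact mX_close hθ.le hX)
          rw [hm', ← hD', ← hKn] at e5
          calc _ ≤ ε / 16 * D' := e5
            _ = _ := by ring
        · rw [bth_zero hbsz hX, zero_mul, zero_mul]
      · rw [integral_mul_const, hgss, one_mul]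
    -- conclusion
    have h5 : pair φ1 (Sn F d n S) u = D'⁻¹ * Kn := by
      rw [hKn, ← mul_assoc, inv_mul_cancel₀ hD'0.ne', one_mul]
    rw [h5, h3, ← mul_sub, abs_mul, abs_of_pos (inv_pos.2 hD'0)]
    have h6 : |Kn - Pm| ≤ D' * (ε / 16) +
        K0 * (1 + δ * (d : ℝ) ^ m) * (D' / (d : ℝ) ^ m) +
        K1 * (1 + (a * (d : ℝ) ^ m + Ce) + Bw + Lg) * (D' / (d : ℝ) ^ m) := by
      have h7 : Kn - Pm = (E1 - E2) - (E1 - Kn) + (E2 - Pm) := by ring
      rw [h7]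
      refine (abs_add_le _ _).trans ?_
      have h8 := abs_sub (E1 - E2) (E1 - Kn)
      linarith
    have h8 : K0 * (1 + δ * (d : ℝ) ^ m) * (D' / (d : ℝ) ^ m) =
        D' * (K0 / (d : ℝ) ^ m + ε / 16) := by
      rw [← hδ2]
      field_simp
    have h8b : K1 * (1 + (a * (d : ℝ) ^ m + Ce) + Bw + Lg) * (D' / (d : ℝ) ^ m) =
        D' * ((K1 * (1 + Ce + Bw) + K1 * Lg) / (d : ℝ) ^ m + K1 * a) := by
      field_simp
      ring
    have h9 : K0 / (d : ℝ) ^ m ≤ ε / 16 := by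
      rw [div_le_iff₀ hdm0]
      rw [div_le_iff₀ hε] at hb2
      linarith
    have h9b : (K1 * (1 + Ce + Bw) + K1 * Lg) / (d : ℝ) ^ m ≤ ε / 16 := by
      rw [div_le_iff₀ hdm0]
      rw [div_le_iff₀ hε] at hb4
      linarith
    have h12 : |Kn - Pm| ≤ D' * (5 * (ε / 16)) := by
      refine h6.trans ?_
      rw [h8, h8b]
      have h14 : D' * (K0 / (d : ℝ) ^ m) ≤ D' * (ε / 16) := mul_le_mul_of_nonneg_left h9 hD'0.le
      have h15 : D' * ((K1 * (1 + Ce + Bw) + K1 * Lg) / (d : ℝ) ^ m) ≤ D' * (ε / 16) :=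
        mul_le_mul_of_nonneg_left h9b hD'0.le
      have h16 : D' * (K1 * a) ≤ D' * (ε / 16) := mul_le_mul_of_nonneg_left haK hD'0.le
      linarith
    calc D'⁻¹ * |Kn - Pm| ≤ D'⁻¹ * (D' * (5 * (ε / 16))) :=
          mul_le_mul_of_nonneg_left h12 (inv_pos.2 hD'0).le
      _ = 5 * (ε / 16) := by rw [← mul_assoc, inv_mul_cancel₀ hD'0.ne', one_mul]
  -- from `φ1` to `φ`
  have hdiff : ∀ (n : ℕ) (S : Form (Fin (k + 1)) p), ProjForm S →
      mass q S = mass q (om (k + 1) p) →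
      pair φ1 (Sn F d n S) u = pair φ (Sn F d n S) u + B * c0 := by
    intro n S hS hmS
    have hSn : ProjForm (Sn F d n S) := (hD12 (k + 1) d F hd1 hF 0 n).2.2.2.2 p S hS
    have hmSn : mass q (Sn F d n S) = c0 := by
      rw [((hP5 (k + 1) p q d S hq hS).2.1 F n hd1 hF), hmS, hc0d]
    have hLH : ∀ j, LH (1 : ℝ) (u j) := fun j => (hL1 (k + 1) 0 0 0 0 (u j) (u j)).2.2.1 (hu j)
    have hint := (hP1 (k + 1) p q (Sn F d n S) u (fun _ => 1) hq hSn hLH).2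
    have i1' := hint φ hφ.smooth.continuousOn
    have i2' := hint (fun _ => 1) continuousOn_const
    have h1 := (hP3 (k + 1) p q (Sn F d n S) u hq hSn hu).2.2.1
    rw [hmSn] at h1
    rw [← h1, ← pair_const, hφ1e]
    unfold pair Iint
    have i3' : IntegrableOn
        (fun z => B * (fun _ : Fin (k + 1) → ℂ => (1 : ℝ)) z * Q (Sn F d n S) u z)
        {z : Fin (k + 1) → ℂ | 0 ≤ ell z ∧ ell z < 1} := by
      have h2 : (fun z => B * (fun _ : Fin (k + 1) → ℂ => (1 : ℝ)) z * Q (Sn F d n S) u z) =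
          fun z => B * ((fun _ : Fin (k + 1) → ℂ => (1 : ℝ)) z * Q (Sn F d n S) u z) :=
        funext fun z => mul_assoc _ _ _
      rw [h2]
      exact i2'.const_mul B
    rw [← integral_add i1' i3']
    have h3 : (fun z => (φ z + B) * Q (Sn F d n S) u z) = fun z => φ z * Q (Sn F d n S) u z +
        B * (fun _ : Fin (k + 1) → ℂ => (1 : ℝ)) z * Q (Sn F d n S) u z := by
      funext z
      ring
    rw [h3]
  have k2 := hCk m n (by omega)
  have k4 : Ck / (d : ℝ) ^ m ≤ ε / 4 := by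
    rw [div_le_iff₀ hdm0]
    rw [div_le_iff₀ hε] at hb3
    linarith [le_abs_self Ck]
  have k3 : pair φ (Sn F d n S) u - pair φ (Sn F d n (om (k + 1) p)) u =
      (pair φ1 (Sn F d n S) u - pair φ1 (Sn F d m (om (k + 1) p)) u) -
      (pair φ (Sn F d n (om (k + 1) p)) u - pair φ (Sn F d m (om (k + 1) p)) u) := by
    rw [hdiff n S hS0.pf hS0.ms, hdiff m (om (k + 1) p) hom rfl]
    ring
  rw [k3]
  calc _ ≤ _ := abs_sub _ _
    _ ≤ 5 * (ε / 16) + ε / 4 := add_le_add key (k2.trans k4)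
    _ < ε := by linarith

end

end Pool.Agent.H91.EM
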